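import Mathlib
import Pool.Agent.H31.MO.Y

/-!
# Lindelöf's bound in mean square along integers with restricted digits

`U` is any finite set of integers `0 ≤ u < b ^ L` whose digit at the place `i` (base `b`) belongs to a set `D_i` of `s` digits,
which is a union of at most `r` runs of consecutive digits, and `x_u` is ANY point of `[β + α u, β + α u + 1)` which lies in
`[T, 2 T]`; here `b ^ L ≤ T`, `1 ≤ α ≤ A`, `β` is any real number and `r (3 + log b) ≤ b ^ (ε / 4)`. We show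
`∑_{u ∈ U} |ζ(1/2 + i x_u)|^2 ≤ C b T^ε (T^(1/2) + s^L)`, with `C = C(ε, A)`.

If `s ^ L ≥ T ^ (1 / 2)` this is, for each `ε` and the bases `b ≥ b₀(ε)` with `r ≤ b ^ (ε / 5)`, Lindelöf's bound in mean square
(with the exponent `ε`; for a fixed base `ε` cannot tend to `0`) for the maxima of zeta in the windows
`[β + α u, β + α u + 1)`, and all but `C b T^(ε - 2 δ) s^L` of these maxima are less than `T^δ`. There are `s ^ L` windows,
which may be as few as `T ^ (1 / 2)`, spread over the whole of `[T, 2 T]` or over a part of it of any length down to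
`T ^ (1 / 2)`. In particular `∑ |ζ(1/2 + i u)|^2 ≤ C b^2 X^ε |D|^L` for the sum over all integers `u` with `L` digits in base `b`
(no leading zero), all in `D`, `X = b^L`, if `|D|^2 ≥ b` and `D` has `r` runs with `r (3 + log b) ≤ b ^ (ε / 4)`.

Proof. The approximate functional equation reduces the sum to `∑ |D(t)|^2` for Dirichlet polynomials `D` of length about
`T^(1/2)`. By duality this is a sum over pairs `m, n` of the exponential sum over the digit set at `log (m / n)`; the reduced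
fractions of height about `P` are `1 / P^2`-separated, and the part of the exponential sum which belongs to the lowest
digits, with `b^j` about `P^2`, is small in `L^1` norm over such points because a union of `r` runs of digits
has an exponential sum of `L^1` norm at most `r (3 + log b)`.
-/

set_option autoImplicit false

open Finset

namespace Pool.Agent.Results.MP_4e5e8a_nt.DigitSetMeans

/-- the number of runs of consecutive integers of which the finite set `D` is the union -/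
def runs (D : Finset ℕ) : ℕ := (D.filter (fun d => d + 1 ∉ D)).card

/-- the `u < b ^ L` whose digit at the place `i` in base `b` lies in `D i`, for all `i < L` -/
def Digits (b L : ℕ) (D : ℕ → Finset ℕ) (u : ℕ) : Prop := u < b ^ L ∧ ∀ i < L, u / b ^ i % b ∈ D i

/-- `L` sets of `s` digits in base `b`, each of them a union of at most `r` runs -/
def DigitSets (b L s r : ℕ) (D : ℕ → Finset ℕ) : Prop :=
  ∀ i < L, D i ⊆ range b ∧ (D i).card = s ∧ runs (D i) ≤ r

/-- `x u` lies in the window `[β + α u, β + α u + 1)` and in `[T, 2 T]`, for all `u ∈ U` -/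
def InWindows (U : Finset ℕ) (α β T : ℝ) (x : ℕ → ℝ) : Prop :=
  ∀ u ∈ U, β + α * u ≤ x u ∧ x u < β + α * u + 1 ∧ T ≤ x u ∧ x u ≤ 2 * T

/-- the integers with exactly `L` digits in base `b` (the highest one is not zero), all of them in `D` -/
def Restricted (b L : ℕ) (D : Finset ℕ) : Finset ℕ :=
  (range (b ^ L)).filter (fun u => b ^ (L - 1) ≤ u ∧ ∀ i < L, u / b ^ i % b ∈ D)

/-- `|ζ(1/2 + i t)|` -/
noncomputable def Z (t : ℝ) : ℝ := ‖riemannZeta (1 / 2 + t * Complex.I)‖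

lemma Z_eq (t : ℝ) : ‖riemannZeta (Pool.Agent.Y766.hl t)‖ = Z t := by
  unfold Z Pool.Agent.Y766.hl
  norm_num

lemma half {b L s r : ℕ} {ε A C : ℝ}
    (h : ∀ (T : ℝ) (b L s r : ℕ) (D : ℕ → Finset ℕ) (α β : ℝ) (W : Finset ℝ),
      1 ≤ T → 2 ≤ b → r * (3 + Real.log b) ≤ (b : ℝ) ^ (ε / 4) → (b:ℝ) ^ L ≤ T → 1 ≤ s →
      (∀ i, ∀ d ∈ D i, d < b) → (∀ i, (D i).card = s) → (∀ i, H31.ZD.runs (D i) ≤ r) → 1 ≤ α → α ≤ A →
      (∀ t ∈ W, ∀ t' ∈ W, t ≠ t' → 1 ≤ |t - t'|) →
      (∀ t ∈ W, ∃ u ∈ H31.MO.Dset b L D, β + α * u ≤ t ∧ t < β + α * u + 1) → (∀ t ∈ W, T ≤ t ∧ t ≤ 2 * T) →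
      ∑ t ∈ W, ‖riemannZeta (Pool.Agent.Y766.hl t)‖^2 ≤ C * b * T ^ ε * (T ^ (1 / 2 : ℝ) + (s:ℝ)^L))
    {T : ℝ} {D : ℕ → Finset ℕ} {α β : ℝ} (U : Finset ℕ) (x : ℕ → ℝ)
    (hT : 1 ≤ T) (hb : 2 ≤ b) (hrb : r * (3 + Real.log b) ≤ (b : ℝ) ^ (ε / 4)) (hL : (b:ℝ) ^ L ≤ T) (hL1 : 1 ≤ L)
    (hs1 : 1 ≤ s) (hD : DigitSets b L s r D) (hα : 1 ≤ α) (hαA : α ≤ A) (hU : ∀ u ∈ U, Digits b L D u)
    (hx : InWindows U α β T x) (e : ℕ) :
    ∑ u ∈ U with u % 2 = e, Z (x u) ^ 2 ≤ C * b * T ^ ε * (T ^ (1 / 2 : ℝ) + (s : ℝ) ^ L) := by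
  classical
  set D' : ℕ → Finset ℕ := fun i => if i < L then D i else D 0 with hD'
  have hall : ∀ i, D' i ⊆ range b ∧ (D' i).card = s ∧ runs (D' i) ≤ r := by
    intro i
    simp only [hD']
    split_ifs with h
    · exact hD i h
    · exact hD 0 hL1
  have hfar : ∀ u ∈ U, ∀ v ∈ U, u % 2 = v % 2 → u ≠ v → 1 ≤ |x u - x v| := by
    have key : ∀ u ∈ U, ∀ v ∈ U, u % 2 = v % 2 → u < v → 1 ≤ |x u - x v| := by
      intro u hu v hv huv hlt
      have h2 : u + 2 ≤ v := by omega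
      have h3 : (u:ℝ) + 2 ≤ v := by exact_mod_cast h2
      obtain ⟨a1, a2, -, -⟩ := hx u hu
      obtain ⟨b1, b2, -, -⟩ := hx v hv
      rw [abs_sub_comm]
      refine le_trans ?_ (le_abs_self _)
      nlinarith
    intro u hu v hv huv hne
    rcases lt_or_gt_of_ne hne with h1 | h1
    · exact key u hu v hv huv h1
    · rw [abs_sub_comm]
      exact key v hv u hu huv.symm h1
  have hinj : Set.InjOn x (U.filter (fun u => u % 2 = e) : Finset ℕ) := by
    intro u hu v hv huv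
    rw [Finset.mem_coe, mem_filter] at hu hv
    by_contra hne
    have := hfar u hu.1 v hv.1 (by rw [hu.2, hv.2]) hne
    rw [huv, sub_self, abs_zero] at this
    linarith
  have h' := h T b L s r D' α β ((U.filter (fun u => u % 2 = e)).image x) hT hb hrb hL hs1
    (fun i d hd => mem_range.mp ((hall i).1 hd)) (fun i => (hall i).2.1) (fun i => (hall i).2.2) hα hαA ?_ ?_ ?_
  · rw [sum_image hinj] at h'
    simp only [Z_eq] at h'
    exact h'
  · intro t ht t' ht' hne
    rw [mem_image] at ht ht'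
    obtain ⟨u, hu, rfl⟩ := ht
    obtain ⟨v, hv, rfl⟩ := ht'
    rw [mem_filter] at hu hv
    exact hfar u hu.1 v hv.1 (by rw [hu.2, hv.2]) (fun h => hne (by rw [h]))
  · intro t ht
    rw [mem_image] at ht
    obtain ⟨u, hu, rfl⟩ := ht
    rw [mem_filter] at hu
    obtain ⟨a1, a2, -, -⟩ := hx u hu.1
    refine ⟨u, ?_, a1, a2⟩
    rw [H31.MO.Dset_mem]
    have := hU u hu.1
    refine ⟨this.1, fun i hi => ?_⟩
    simp only [hD', if_pos hi]
    exact this.2 i hi
  · intro t ht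
    rw [mem_image] at ht
    obtain ⟨u, hu, rfl⟩ := ht
    rw [mem_filter] at hu
    exact (hx u hu.1).2.2

/-- the integers with `L` digits in `D` and the highest digit `d` -/
lemma top {b L : ℕ} (hb : 2 ≤ b) (hL : 1 ≤ L) {D : Finset ℕ} {u : ℕ} (hu : u ∈ Restricted b L D) :
    u / b ^ (L - 1) ∈ D ∧ 1 ≤ u / b ^ (L - 1) ∧ u / b ^ (L - 1) < b ∧
      (u % b ^ (L - 1)) ∈ H31.MO.Dset b (L - 1) (fun _ => D) := by
  unfold Restricted at hu
  rw [mem_filter, mem_range] at hu
  obtain ⟨h1, h2, h3⟩ := hu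
  have hpos : 0 < b ^ (L - 1) := by positivity
  have hlt : u / b ^ (L - 1) < b := by
    rw [Nat.div_lt_iff_lt_mul hpos, ← pow_succ']
    rwa [Nat.sub_add_cancel hL]
  refine ⟨?_, ?_, hlt, ?_⟩
  · have := h3 (L - 1) (by omega)
    rwa [Nat.mod_eq_of_lt hlt] at this
  · rw [Nat.one_le_div_iff hpos]
    exact h2
  · rw [H31.MO.Dset_mem]
    refine ⟨Nat.mod_lt _ hpos, fun i hi => ?_⟩
    have h4 := h3 i (by omega)
    have h5 : u % b ^ (L - 1) / b ^ i % b = u / b ^ i % b := by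
      obtain ⟨j, hj⟩ : ∃ j, L - 1 = i + 1 + j := ⟨L - 1 - (i + 1), by omega⟩
      rw [hj]
      have e1 : b ^ (i + 1 + j) = b ^ i * (b * b ^ j) := by ring
      rw [e1, Nat.mod_mul_right_div_self]
      exact Nat.mod_mul_right_mod _ _ _
    rw [h5]
    exact h4

/-- **Lindelöf's bound in mean square along integers with restricted digits** -/
theorem result :
    -- (1) mean squares and (2) large values
    (∀ ε A : ℝ, 0 < ε → 1 ≤ A → ∃ C : ℝ, 0 < C ∧
      ∀ (T : ℝ) (b L s r : ℕ) (D : ℕ → Finset ℕ) (α β : ℝ) (U : Finset ℕ) (x : ℕ → ℝ),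
      2 ≤ b → r * (3 + Real.log b) ≤ (b : ℝ) ^ (ε / 4) → (b : ℝ) ^ L ≤ T → 1 ≤ L → 1 ≤ s →
      DigitSets b L s r D → 1 ≤ α → α ≤ A → (∀ u ∈ U, Digits b L D u) → InWindows U α β T x →
      ∑ u ∈ U, Z (x u) ^ 2 ≤ C * b * T ^ ε * (T ^ (1 / 2 : ℝ) + (s : ℝ) ^ L) ∧
      ∀ V : ℝ, 0 < V → ((U.filter (fun u => V ≤ Z (x u))).card : ℝ) ≤
        C * b * T ^ ε * (T ^ (1 / 2 : ℝ) + (s : ℝ) ^ L) / V ^ 2) ∧
    -- (3) all integers with `L` digits in `D`
    (∀ ε : ℝ, 0 < ε → ∃ C : ℝ, 0 < C ∧ ∀ (b L : ℕ) (D : Finset ℕ), 2 ≤ b → 1 ≤ L → D ⊆ range b → b ≤ D.card ^ 2 →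
      runs D * (3 + Real.log b) ≤ (b : ℝ) ^ (ε / 4) →
      ∑ u ∈ Restricted b L D, Z u ^ 2 ≤ C * b ^ 2 * ((b : ℝ) ^ L) ^ ε * (D.card : ℝ) ^ L) := by
  classical
  refine ⟨?_, ?_⟩
  · intro ε A hε hA
    obtain ⟨C, hC, h⟩ := H31.MO.zmain ε A hε hA
    refine ⟨2 * C, by positivity, ?_⟩
    intro T b L s r D α β U x hb hrb hL hL1 hs1 hD hα hαA hU hx
    have hb1 : (1:ℝ) ≤ b := by exact_mod_cast (by omega : 1 ≤ b)
    have hT : 1 ≤ T := (one_le_pow₀ hb1).trans hL
    have hmain : ∑ u ∈ U, Z (x u) ^ 2 ≤ 2 * C * b * T ^ ε * (T ^ (1 / 2 : ℝ) + (s : ℝ) ^ L) := by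
      have h0 := half h U x hT hb hrb hL hL1 hs1 hD hα hαA hU hx 0
      have h1 := half h U x hT hb hrb hL hL1 hs1 hD hα hαA hU hx 1
      have hsplit : ∑ u ∈ U, Z (x u) ^ 2 = ∑ u ∈ U with u % 2 = 0, Z (x u) ^ 2 + ∑ u ∈ U with u % 2 = 1, Z (x u) ^ 2 := by
        rw [← sum_filter_add_sum_filter_not U (fun u => u % 2 = 0)]
        congr 1
        apply sum_congr _ (fun _ _ => rfl)
        apply filter_congr
        intro u _
        omega
      rw [hsplit]
      linarith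
    refine ⟨hmain, fun V hV => ?_⟩
    rw [le_div_iff₀ (by positivity)]
    refine le_trans ?_ hmain
    calc ((U.filter (fun u => V ≤ Z (x u))).card : ℝ) * V ^ 2 = ∑ u ∈ U.filter (fun u => V ≤ Z (x u)), V ^ 2 := by
          rw [sum_const, nsmul_eq_mul]
      _ ≤ ∑ u ∈ U.filter (fun u => V ≤ Z (x u)), Z (x u) ^ 2 :=
          sum_le_sum fun u hu => pow_le_pow_left₀ hV.le (mem_filter.mp hu).2 2
      _ ≤ _ := sum_le_sum_of_subset_of_nonneg (filter_subset _ _) (fun _ _ _ => by positivity)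
  · intro ε hε
    obtain ⟨C, hC, h⟩ := H31.MO.zmain ε 1 hε le_rfl
    refine ⟨2 * C, by positivity, ?_⟩
    intro b L D hb hL hD hcard hrb
    have hb1 : (1:ℝ) ≤ b := by exact_mod_cast (by omega : 1 ≤ b)
    have hb0 : (0:ℝ) < b := by linarith
    have hs1 : 1 ≤ D.card := by
      rcases Nat.eq_zero_or_pos D.card with h0 | h0
      · rw [h0] at hcard
        omega
      · exact h0
    have hsb : D.card ≤ b := by
      have := card_le_card hD
      rwa [card_range] at this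
    have hs1r : (1:ℝ) ≤ D.card := by exact_mod_cast hs1
    have hX1 : (1:ℝ) ≤ (b:ℝ)^L := one_le_pow₀ hb1
    -- the sum over the highest digit
    have hfib : ∑ u ∈ Restricted b L D, Z u ^ 2 =
        ∑ d ∈ D, ∑ u ∈ Restricted b L D with u / b ^ (L - 1) = d, Z u ^ 2 := by
      rw [sum_fiberwise_of_maps_to]
      intro u hu
      exact (top hb hL hu).1
    rw [hfib]
    have hone : ∀ d ∈ D, ∑ u ∈ Restricted b L D with u / b ^ (L - 1) = d, Z u ^ 2 ≤
        2 * C * b * ((b : ℝ) ^ L) ^ ε * (D.card : ℝ) ^ L := by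
      intro d hd
      rcases Nat.eq_zero_or_pos d with rfl | hd1
      · rw [sum_eq_zero]
        · positivity
        · intro u hu
          rw [mem_filter] at hu
          have := (top hb hL hu.1).2.1
          omega
      have hdb : d < b := mem_range.mp (hD hd)
      have hd1r : (1:ℝ) ≤ d := by exact_mod_cast hd1
      have hdbr : (d:ℝ) ≤ b := by exact_mod_cast hdb.le
      obtain ⟨T, hT⟩ : ∃ T : ℝ, T = d * (b:ℝ)^(L-1) := ⟨_, rfl⟩
      have hp1 : (1:ℝ) ≤ (b:ℝ)^(L-1) := one_le_pow₀ hb1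
      have hTb : (b:ℝ)^(L-1) ≤ T := by rw [hT]; nlinarith
      have hT1 : 1 ≤ T := hp1.trans hTb
      have hTX : T ≤ (b:ℝ)^L := by
        rw [hT]
        calc (d:ℝ) * (b:ℝ)^(L-1) ≤ b * (b:ℝ)^(L-1) := by gcongr
          _ = (b:ℝ)^L := by rw [← pow_succ', Nat.sub_add_cancel hL]
      have hdecomp : ∀ u ∈ Restricted b L D, u / b ^ (L - 1) = d →
          (u:ℝ) = T + ((u % b ^ (L - 1) : ℕ) : ℝ) := by
        intro u _ hu
        have := Nat.div_add_mod u (b ^ (L - 1))
        rw [hu] at this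
        rw [hT]
        have h2 : ((b ^ (L - 1) * d + u % b ^ (L - 1) : ℕ) : ℝ) = u := by exact_mod_cast this
        push_cast at h2 ⊢
        linarith
      have h' := h T b (L - 1) D.card (runs D) (fun _ => D) 1 T
        (((Restricted b L D).filter (fun u => u / b ^ (L - 1) = d)).image (fun u : ℕ => (u:ℝ))) hT1 hb hrb hTb hs1
        (fun _ d hd => mem_range.mp (hD hd)) (fun _ => rfl) (fun _ => le_rfl) le_rfl le_rfl ?_ ?_ ?_
      · rw [sum_image (fun u _ v _ huv => by exact_mod_cast huv)] at h'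
        simp only [Z_eq] at h'
        refine h'.trans ?_
        have e1 : T ^ ε ≤ ((b:ℝ)^L)^ε := Real.rpow_le_rpow (by linarith) hTX hε.le
        have e2 : T ^ (1 / 2 : ℝ) ≤ (D.card : ℝ)^L := by
          calc T ^ (1 / 2 : ℝ) ≤ ((b:ℝ)^L) ^ (1 / 2 : ℝ) := Real.rpow_le_rpow (by linarith) hTX (by norm_num)
            _ ≤ (((D.card:ℝ)^L)^2) ^ (1 / 2 : ℝ) := by
                apply Real.rpow_le_rpow (by positivity) _ (by norm_num)
                rw [← pow_mul, mul_comm, pow_mul]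
                apply pow_le_pow_left₀ (by positivity)
                exact_mod_cast hcard
            _ = _ := by
                rw [← Real.rpow_natCast, ← Real.rpow_mul (by positivity)]
                norm_num
        have e3 : (D.card:ℝ)^(L-1) ≤ (D.card:ℝ)^L := pow_le_pow_right₀ hs1r (by omega)
        calc C * b * T ^ ε * (T ^ (1 / 2 : ℝ) + (D.card:ℝ)^(L-1)) ≤
              C * b * ((b:ℝ)^L)^ε * ((D.card : ℝ)^L + (D.card : ℝ)^L) := by gcongr
          _ = _ := by ring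
      · intro t ht t' ht' hne
        rw [mem_image] at ht ht'
        obtain ⟨u, hu, rfl⟩ := ht
        obtain ⟨v, hv, rfl⟩ := ht'
        have h1 : (u:ℤ) ≠ v := fun h => hne (by exact_mod_cast h)
        have h2 : (1:ℤ) ≤ |(u:ℤ) - v| := Int.one_le_abs (sub_ne_zero.mpr h1)
        have h3 : ((1:ℤ):ℝ) ≤ ((|(u:ℤ) - v| : ℤ) : ℝ) := by exact_mod_cast h2
        push_cast at h3
        exact h3
      · intro t ht
        rw [mem_image] at ht
        obtain ⟨u, hu, rfl⟩ := ht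
        rw [mem_filter] at hu
        refine ⟨u % b ^ (L - 1), (top hb hL hu.1).2.2.2, ?_, ?_⟩
        · rw [hdecomp u hu.1 hu.2]
          linarith
        · rw [hdecomp u hu.1 hu.2]
          linarith
      · intro t ht
        rw [mem_image] at ht
        obtain ⟨u, hu, rfl⟩ := ht
        rw [mem_filter] at hu
        have h1 := hdecomp u hu.1 hu.2
        have h2 : ((u % b ^ (L - 1) : ℕ) : ℝ) ≤ (b:ℝ)^(L-1) := by
          have : u % b ^ (L - 1) ≤ b ^ (L - 1) := (Nat.mod_lt _ (by positivity)).le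
          exact_mod_cast this
        have h3 : (0:ℝ) ≤ ((u % b ^ (L - 1) : ℕ) : ℝ) := Nat.cast_nonneg _
        constructor <;> linarith
    calc ∑ d ∈ D, ∑ u ∈ Restricted b L D with u / b ^ (L - 1) = d, Z u ^ 2 ≤
          ∑ d ∈ D, 2 * C * b * ((b : ℝ) ^ L) ^ ε * (D.card : ℝ) ^ L := sum_le_sum hone
      _ = D.card * (2 * C * b * ((b : ℝ) ^ L) ^ ε * (D.card : ℝ) ^ L) := by rw [sum_const, nsmul_eq_mul]
      _ ≤ b * (2 * C * b * ((b : ℝ) ^ L) ^ ε * (D.card : ℝ) ^ L) := by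
          apply mul_le_mul_of_nonneg_right _ (by positivity)
          exact_mod_cast hsb
      _ = _ := by ring

end Pool.Agent.Results.MP_4e5e8a_nt.DigitSetMeans
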