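import Mathlib
import Pool.Agent.H16.MS.M9

set_option autoImplicit false

/-!
# Error terms of divisor-like functions in mean square, moments of zeta, the Lindelof hypothesis

For `r ≥ 0` let `F_r` be the class of the real multiplicative functions `f` with `f(n) = O(n^ε)` for
all `ε > 0` and `f(p) = r + O(p^(-1/2))` at the primes, for example `r^ω(n)` and, if `r = 2^m`, the
powers `d(n)^m` of the divisor function. Write `Δ(x) = ∑_{n ≤ x} f(n) - x P(log x)` and say that
the mean square exponent of `f` is at most `θ` if, for some real polynomial `P`,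
`∫_1^X Δ(x)^2 dx = O(X^(1+2θ+ε))` for every `ε > 0`.

* (Unconditional.) Let `θ ≥ 1/2` and `r' ≤ r`. If one function of `F_r` has mean square exponent
  at most `θ` then so has every function of `F_r'`. In particular the exponents `≥ 1/2` are the
  same for all functions of a class.
* (Unconditional.) For `f` in `F_r` the exponent is at most `θ ≥ 1/2` if and only if
  `∫_1^∞ |ζ(σ+it)|^(2r) t^(-2) dt < ∞` for every `σ > θ`.
* (Unconditional.) For `r ≤ 5` every `f` in `F_r` has mean square exponent at most `1/2`.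
* (Unconditional.) If one `f` in `F_r`, `r ≥ 1`, has mean square exponent at most `θ`, `θ ≥ 1/2`, then
  `ζ(σ+it) = O(|t|^(1/r))` for every `σ > θ`.
* The Lindelof hypothesis gives `Δ(x) = O(x^(1/2+ε))` for all these functions, and it follows if
  for each `ε > 0` there are arbitrarily large `r` and some `f` in `F_r` with mean square exponent at
  most `1/2 + ε`. So it is equivalent to: for infinitely many `m` the mean square exponent of
  `d(n)^m` is at most `1/2`; similarly for `k^ω(n)`.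

Proof. The Dirichlet series of `f` is `ζ(s)^r G(s)`, where `G` converges absolutely for
`Re s > 1/2`. Plancherel's formula turns the mean square of `Δ` into that of `ζ^r G / s` minus
its polar part on vertical lines; in one direction one has to continue the Laplace transform of `Δ` to
the left, which is a Paley-Wiener argument. The function `G` usually has zeros in this half plane
(for `d(n)^m`, `m ≥ 3`, the factor at `2` has infinitely many), so one cannot divide by it; but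
`log |G|` has a lower bound in the mean over discs, because `G` is bounded and is bounded below
far to the right, and `log⁺ (λ |ζ|^r)` is subharmonic. This bounds `|ζ(s)|^(2r)` by a constant
times the mean of `|ζ^r G|^2` over a disc around `s`.
-/

open Complex

namespace Pool.Agent.Results.MP_4e5e8a_nt.DivisorMoments

/-- the Lindelof hypothesis -/
def Lindelof : Prop := ∀ ε : ℝ, 0 < ε → ∃ C : ℝ, ∀ t : ℝ,
  ‖riemannZeta (1 / 2 + t * I)‖ ≤ C * (1 + |t|) ^ ε

/-- `ErrBound f P a`: `|∑_{1 ≤ n ≤ x} f(n) - x P(log x)| ≤ C x^a` for all real `x ≥ 1` -/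
def ErrBound (f : ℕ → ℝ) (P : Polynomial ℝ) (a : ℝ) : Prop := ∃ C : ℝ, ∀ x : ℝ, 1 ≤ x →
  |∑ n ∈ Finset.Icc 1 ⌊x⌋₊, f n - x * P.eval (Real.log x)| ≤ C * x ^ a

/-- the mean square exponent of `f` is at most `θ`: there is a real polynomial `P` such that
`∫_1^X (∑_{1 ≤ n ≤ x} f(n) - x P(log x))^2 dx ≤ C_ε X^(1 + 2 θ + ε)` for all `ε > 0` and `X ≥ 1` -/
def MeanExp (f : ℕ → ℝ) (θ : ℝ) : Prop := ∃ P : Polynomial ℝ, ∀ ε : ℝ, 0 < ε → ∃ C : ℝ, ∀ X : ℝ, 1 ≤ X →
  ∫ x in (1 : ℝ)..X, (∑ n ∈ Finset.Icc 1 ⌊x⌋₊, f n - x * P.eval (Real.log x)) ^ 2 ≤ C * X ^ (1 + 2 * θ + ε)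

/-- the class of `r`: multiplicative functions with `f(p) = r + O(p^(-1/2))` at the primes and
`f(n) = O(n^ε)` for every `ε > 0` (the value `f 0` plays no role) -/
structure DivisorLike (r : ℕ) (f : ℕ → ℝ) : Prop where
  one : f 1 = 1
  mult : ∀ m n : ℕ, 1 ≤ m → 1 ≤ n → m.Coprime n → f (m * n) = f m * f n
  prime : ∃ C : ℝ, ∀ p : ℕ, p.Prime → |f p - r| ≤ C * (p : ℝ) ^ (-(1 / 2) : ℝ)
  small : ∀ ε : ℝ, 0 < ε → ∃ C : ℝ, ∀ n : ℕ, 1 ≤ n → |f n| ≤ C * (n : ℝ) ^ ε

/-- `f` with the value at `0` replaced by `0` -/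
noncomputable def toArith (f : ℕ → ℝ) : ArithmeticFunction ℝ := ⟨fun n => if n = 0 then 0 else f n, by simp⟩

theorem toArith_apply (f : ℕ → ℝ) {n : ℕ} (hn : n ≠ 0) : toArith f n = f n := if_neg hn

theorem toArith_divLike {r : ℕ} {f : ℕ → ℝ} (h : DivisorLike r f) : H16.DM.DivLike r (toArith f) where
  mult := by
    refine ⟨by rw [toArith_apply f one_ne_zero, h.one], fun {a b} hab => ?_⟩
    rcases eq_or_ne a 0 with rfl | ha
    · simp
    rcases eq_or_ne b 0 with rfl | hb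
    · simp
    rw [toArith_apply f (mul_ne_zero ha hb), toArith_apply f ha, toArith_apply f hb]
    exact h.mult a b (Nat.one_le_iff_ne_zero.2 ha) (Nat.one_le_iff_ne_zero.2 hb) hab
  prime := by
    obtain ⟨C, hC⟩ := h.prime
    exact ⟨C, fun p hp => by rw [toArith_apply f hp.ne_zero]; exact hC p hp⟩
  small := by
    intro ε hε
    obtain ⟨C, hC⟩ := h.small ε hε
    have hC0 : 0 ≤ C := by
      have := (abs_nonneg _).trans (hC 1 le_rfl)
      simpa using this
    refine ⟨C, fun n => ?_⟩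
    rcases eq_or_ne n 0 with rfl | hn
    · rw [ArithmeticFunction.map_zero, abs_zero]; positivity
    · rw [toArith_apply f hn]; exact hC n (Nat.one_le_iff_ne_zero.2 hn)

theorem sum_toArith (f : ℕ → ℝ) (x : ℝ) :
    ∑ n ∈ Finset.Icc 1 ⌊x⌋₊, toArith f n = ∑ n ∈ Finset.Icc 1 ⌊x⌋₊, f n := by
  apply Finset.sum_congr rfl
  intro n hn
  have hn0 : n ≠ 0 := by have := (Finset.mem_Icc.1 hn).1; omega
  rw [toArith_apply f hn0]

theorem errBound_iff (f : ℕ → ℝ) (P : Polynomial ℝ) (a : ℝ) : ErrBound f P a ↔ ErrBound (toArith f) P a := by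
  unfold ErrBound
  simp_rw [sum_toArith]

theorem meanExp_iff (f : ℕ → ℝ) (θ : ℝ) : MeanExp f θ ↔ H16.MS.ME (toArith f) θ := by
  unfold MeanExp H16.MS.ME H16.MS.MSB H16.MS.Del
  simp_rw [sum_toArith]
  constructor
  · rintro ⟨P, hP⟩
    refine ⟨P, fun ε hε => ?_⟩
    obtain ⟨C, hC⟩ := hP (2 * ε) (by linarith)
    refine ⟨C, fun X hX => ?_⟩
    have := hC X hX
    rwa [show 1 + 2 * θ + 2 * ε = 1 + 2 * (θ + ε) by ring] at this
  · rintro ⟨P, hP⟩
    refine ⟨P, fun ε hε => ?_⟩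
    obtain ⟨C, hC⟩ := hP (ε / 2) (by linarith)
    refine ⟨C, fun X hX => ?_⟩
    have := hC X hX
    rwa [show 1 + 2 * (θ + ε / 2) = 1 + 2 * θ + ε by ring] at this

theorem main_forward (h : Lindelof) (r : ℕ) (f : ℕ → ℝ) (hf : DivisorLike r f) :
    ∃ P : Polynomial ℝ, ∀ ε : ℝ, 0 < ε → ErrBound f P (1 / 2 + ε) := by
  obtain ⟨P, hP⟩ := H16.DM.forward' h (toArith_divLike hf)
  exact ⟨P, fun ε hε => (errBound_iff f P _).2 (hP ε hε)⟩

/-- a pointwise bound gives a mean square bound -/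
theorem meanExp_of_err (f : ℕ → ℝ) (P : Polynomial ℝ) (θ : ℝ) (hθ : 0 ≤ θ) (h : ∀ ε : ℝ, 0 < ε → ErrBound f P (θ + ε)) :
    MeanExp f θ := by
  refine (meanExp_iff f θ).2 ⟨P, fun ε hε => ?_⟩
  obtain ⟨C, hC⟩ := (errBound_iff f P _).1 (h ε hε)
  exact H16.MS.MSB_of_err (by linarith) hC

theorem main_mean (h : Lindelof) (r : ℕ) (f : ℕ → ℝ) (hf : DivisorLike r f) : MeanExp f (1 / 2) := by
  obtain ⟨P, hP⟩ := main_forward h r f hf
  exact meanExp_of_err f P _ (by norm_num) hP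

theorem main_converse (h : ∀ ε : ℝ, 0 < ε → ∀ R : ℕ, ∃ r : ℕ, R ≤ r ∧ ∃ f : ℕ → ℝ,
    DivisorLike r f ∧ MeanExp f (1 / 2 + ε)) : Lindelof := by
  apply H16.MS.LH_of_mean
  intro ε hε R
  obtain ⟨r, hr, f, hf, hP⟩ := h ε hε R
  exact ⟨r, hr, toArith f, toArith_divLike hf, (meanExp_iff f _).1 hP⟩

theorem meanExp_mono {f : ℕ → ℝ} {θ θ' : ℝ} (h : θ ≤ θ') (hf : MeanExp f θ) : MeanExp f θ' := by
  obtain ⟨P, hP⟩ := (meanExp_iff f θ).1 hf
  exact (meanExp_iff f θ').2 ⟨P, fun ε hε => H16.MS.MSB_mono (by linarith) (hP ε hε)⟩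

/-- `d(n)^m` -/
theorem divPow (m : ℕ) (hm : 1 ≤ m) : DivisorLike (2 ^ m) (fun n => (n.divisors.card : ℝ) ^ m) where
  one := by simp
  mult := fun a b _ _ hab => (H16.DM.dpow_divLike m hm).mult.map_mul_of_coprime hab
  prime := (H16.DM.dpow_divLike m hm).prime
  small := by
    intro ε hε
    obtain ⟨C, hC⟩ := (H16.DM.dpow_divLike m hm).small ε hε
    exact ⟨C, fun n _ => hC n⟩

/-- `k^ω(n)` -/
theorem komPow (k : ℕ) (hk : 1 ≤ k) : DivisorLike k (fun n => (k : ℝ) ^ n.primeFactors.card) where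
  one := by simp
  mult := fun a b ha hb hab => by
    show (k : ℝ) ^ (a * b).primeFactors.card = (k : ℝ) ^ a.primeFactors.card * (k : ℝ) ^ b.primeFactors.card
    rw [hab.primeFactors_mul, Finset.card_union_of_disjoint hab.disjoint_primeFactors, pow_add]
  prime := by
    obtain ⟨C, hC⟩ := (H16.DM.kom_divLike k hk).prime
    refine ⟨C, fun p hp => ?_⟩
    have h := hC p hp
    have e : H16.DM.kom k p = (k : ℝ) ^ p.primeFactors.card := if_neg hp.ne_zero
    rwa [e] at h
  small := by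
    intro ε hε
    obtain ⟨C, hC⟩ := (H16.DM.kom_divLike k hk).small ε hε
    refine ⟨C, fun n hn => ?_⟩
    have h := hC n
    have e : H16.DM.kom k n = (k : ℝ) ^ n.primeFactors.card := if_neg (by omega)
    rwa [e] at h

theorem result :
    -- unconditional: comparison of the mean squares inside a class, and between classes
    (∀ (r r' : ℕ) (f g : ℕ → ℝ) (θ : ℝ), r' ≤ r → DivisorLike r f → DivisorLike r' g → 1 / 2 ≤ θ →
      MeanExp f θ → MeanExp g θ) ∧
    -- unconditional: the common exponent of the class in terms of the zeta function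
    (∀ (r : ℕ) (f : ℕ → ℝ) (θ : ℝ), DivisorLike r f → 1 / 2 ≤ θ →
      (MeanExp f θ ↔ ∀ σ : ℝ, θ < σ →
        MeasureTheory.IntegrableOn (fun t : ℝ => ‖riemannZeta (σ + t * I)‖ ^ (2 * r) / t ^ 2) (Set.Ioi 1))) ∧
    -- unconditional: the exponent is at most `1/2` for `r ≤ 5`
    (∀ (r : ℕ) (f : ℕ → ℝ), r ≤ 5 → DivisorLike r f → MeanExp f (1 / 2)) ∧
    -- unconditional: a pointwise bound for zeta from the mean square of a single error term
    (∀ (r : ℕ) (f : ℕ → ℝ) (θ : ℝ), 1 ≤ r → DivisorLike r f → 1 / 2 ≤ θ → MeanExp f θ →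
      ∀ σ : ℝ, θ < σ → ∃ C : ℝ, ∀ t : ℝ, 1 ≤ |t| → ‖riemannZeta (σ + t * I)‖ ≤ C * |t| ^ (1 / r : ℝ)) ∧
    -- a pointwise bound for the error term gives the mean square bound
    (∀ (f : ℕ → ℝ) (P : Polynomial ℝ) (θ : ℝ), 0 ≤ θ → (∀ ε : ℝ, 0 < ε → ErrBound f P (θ + ε)) → MeanExp f θ) ∧
    -- under the Lindelof hypothesis
    (Lindelof → ∀ (r : ℕ) (f : ℕ → ℝ), DivisorLike r f →
      ∃ P : Polynomial ℝ, ∀ ε : ℝ, 0 < ε → ErrBound f P (1 / 2 + ε)) ∧
    -- the Lindelof hypothesis from the mean squares of a sequence of functions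
    ((∀ ε : ℝ, 0 < ε → ∀ R : ℕ, ∃ r : ℕ, R ≤ r ∧ ∃ f : ℕ → ℝ,
      DivisorLike r f ∧ MeanExp f (1 / 2 + ε)) → Lindelof) ∧
    -- powers of the divisor function
    (Lindelof ↔ ∀ M : ℕ, ∃ m : ℕ, M ≤ m ∧ MeanExp (fun n => (n.divisors.card : ℝ) ^ m) (1 / 2)) ∧
    -- the functions `k^ω(n)`
    (Lindelof ↔ ∀ K : ℕ, ∃ k : ℕ, K ≤ k ∧ MeanExp (fun n => (k : ℝ) ^ n.primeFactors.card) (1 / 2)) := by
  refine ⟨fun r r' f g θ hr hf hg hθ h => ?_, fun r f θ hf hθ => ?_, fun r f hr hf => ?_,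
    fun r f θ hr hf hθ h σ hσ => ?_, meanExp_of_err, main_forward, main_converse,
    ⟨fun h M => ⟨M + 1, by omega, main_mean h _ _ (divPow (M + 1) (by omega))⟩, fun h => ?_⟩,
    ⟨fun h K => ⟨K + 1, by omega, main_mean h _ _ (komPow (K + 1) (by omega))⟩, fun h => ?_⟩⟩
  · exact (meanExp_iff g θ).2 (H16.MS.comparison hr (toArith_divLike hf) (toArith_divLike hg) hθ ((meanExp_iff f θ).1 h))
  · rw [meanExp_iff]
    exact H16.MS.criterion (toArith_divLike hf) hθ
  · exact (meanExp_iff f _).2 (H16.MS.five hr (toArith_divLike hf))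
  · exact H16.MS.mean_single hr (toArith_divLike hf) hθ ((meanExp_iff f θ).1 h) hσ
  · apply main_converse
    intro ε hε R
    obtain ⟨m, hm, hP⟩ := h (R + 1)
    exact ⟨2 ^ m, by have := Nat.lt_two_pow_self (n := m); omega, _, divPow m (by omega), meanExp_mono (by linarith) hP⟩
  · apply main_converse
    intro ε hε R
    obtain ⟨k, hk, hP⟩ := h (R + 1)
    exact ⟨k, by omega, _, komPow k (by omega), meanExp_mono (by linarith) hP⟩

end Pool.Agent.Results.MP_4e5e8a_nt.DivisorMoments
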