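import Mathlib
import Pool.Agent.H16.MM.G11
import Pool.Agent.H16.MM.U4

set_option autoImplicit false

/-!
# Mixed moments of zeta, additively twisted divisor sums and the Lindelof hypothesis

For a real `α > 0` and an integer `k ≥ 0` let
`M(T) = ∫_0^T ζ(1/2+it)^k ζ(1/2-it) α^(-it) dt` and
`D(T) = 2π √α ∑_{n ≤ T/(2πα)} d_{k+1}(n) e^(-2πiαn)`.

* If `ζ(1/2+it) = O(t^(a+ε))` and `(k+1) a ≥ 1/2` then `M(T) - D(T) = O(T^((k+1)a+ε))`, and
  conversely; so every bound `μ(1/2) ≤ 1/(2k+2)` is equivalent to a square root error term.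
* A bound `M(T) - D(T) = O(T^(A+ε))` with any `A ≥ 0` gives `ζ(1/2+it) = O(t^(A/(k+1)+ε))`.
* The Lindelof hypothesis is equivalent to the error term `O(T^(1/2+ε))` for all `k`, and to an
  error term `O(T^A)` with one fixed `A` for infinitely many `k`; here `α` is any fixed number.
* (unconditional, pointwise) `M(T) - D(T) = O(T^(max(1/2, (k+1)/6) + ε))` for all `k` and all `α`: the
  asymptotic formula has the error term of the Lindelof hypothesis for `k ≤ 2`, and it has a power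
  saving for `k ≤ 4`.
* (unconditional, in mean) `∫_X^{2X} |M(T) - D(T)|^p dT = O(X^(1+b+ε))` for all `k`, all integers
  `p ≥ 1` and all `α`, with `b = max(p/2, ((k+1)p-4)/6)`: the error term of the Lindelof hypothesis
  holds in the mean of order `p` if `p(k-2) ≤ 4`, so for almost all `T` if `k ≤ 6`, and there is a
  power saving for almost all `T` if `k ≤ 8`.

Proof. By the functional equation the integrand is `√α χ(1-s) ζ(s)^(k+1) α^(-s)`, `s = 1/2+it`. By
Phragmen-Lindelof it may be integrated over `Re s = 1 + ε` with an admissible error. There the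
`n`-th term is a truncated Mellin integral of `e^(-ix)`, `x = 2παn`, which is evaluated with an
error `O(T^(1/2)/(1+|T-x|))` by the recurrence `g(s+1) = g(s) s/(ix)` of its integrand (no
stationary phase is used). The unconditional parts use the bound of Weyl, the fourth moment and a
maximum principle for the mean values over vertical segments. Conversely, the difference `M - D` controls the integrals of the
integrand over intervals of bounded length, hence, by Phragmen-Lindelof to the right of the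
critical line and Cauchy's inequality, the integrand itself.
-/

open Complex Filter Topology Set MeasureTheory

namespace Pool.Agent.Results.MP_4e5e8a_nt.MixedMoments

open Pool.Agent.H16.MM

/-- `ZetaOrder a`: for every `ε > 0` one has `|ζ(1/2+it)| ≤ C_ε (1+|t|)^(a+ε)` for all real `t` -/
def ZetaOrder (a : ℝ) : Prop := ∀ ε : ℝ, 0 < ε → ∃ C : ℝ, ∀ t : ℝ,
  ‖riemannZeta (1 / 2 + t * I)‖ ≤ C * (1 + |t|) ^ (a + ε)

/-- the Lindelof hypothesis -/
def Lindelof : Prop := ∀ ε : ℝ, 0 < ε → ∃ C : ℝ, ∀ t : ℝ,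
  ‖riemannZeta (1 / 2 + t * I)‖ ≤ C * (1 + |t|) ^ ε

/-- `d_m(n)`, the number of ordered factorisations of `n` into `m` positive factors, as the value
at `n` of the `m`-th Dirichlet convolution power of the constant function `1` -/
def divisorFn (m n : ℕ) : ℕ := (ArithmeticFunction.zeta ^ m : ArithmeticFunction ℕ) n

/-- `M(T) = ∫_0^T ζ(1/2+it)^k ζ(1/2-it) α^(-it) dt` -/
noncomputable def mixedMoment (k : ℕ) (α T : ℝ) : ℂ :=
  ∫ t in (0:ℝ)..T, riemannZeta (1 / 2 + t * I) ^ k * riemannZeta (1 / 2 - t * I) * (α : ℂ) ^ (-(t * I))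

/-- `D(T) = 2π √α ∑_{1 ≤ n ≤ T/(2πα)} d_{k+1}(n) e^(-2πiαn)` -/
noncomputable def divisorSum (k : ℕ) (α T : ℝ) : ℂ :=
  2 * Real.pi * (√α : ℂ) * ∑ n ∈ Finset.Icc 1 ⌊T / (2 * Real.pi * α)⌋₊,
    (divisorFn (k + 1) n : ℂ) * cexp (-(2 * Real.pi * α * n * I))

/-- `ErrorOrder k α A`: for every `ε > 0` one has `|M(T) - D(T)| ≤ C_ε T^(A+ε)` for all `T ≥ 2` -/
def ErrorOrder (k : ℕ) (α A : ℝ) : Prop := ∀ ε : ℝ, 0 < ε → ∃ C : ℝ, ∀ T : ℝ, 2 ≤ T →
  ‖mixedMoment k α T - divisorSum k α T‖ ≤ C * T ^ (A + ε)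

theorem moment_eq (k : ℕ) (α T : ℝ) : mixedMoment k α T = MMt k α T := rfl

theorem sum_eq (k : ℕ) (α T : ℝ) : divisorSum k α T = DD k α T := by
  unfold divisorSum DD divisorFn Pool.Agent.Helper156_SM.ak
  push_cast
  rfl

theorem order_upper {k : ℕ} {α a : ℝ} (hα : 0 < α) (ha : 0 ≤ a) (h : ZetaOrder a) :
    ErrorOrder k α (max (1 / 2) ((k + 1) * a)) := by
  intro ε hε
  obtain ⟨C, hC⟩ := upper hα k ha h hε
  refine ⟨C, fun T hT => ?_⟩
  rw [moment_eq, sum_eq]
  exact hC T hT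

theorem order_lower {k : ℕ} {α A : ℝ} (hα : 0 < α) (hA : 0 ≤ A) (h : ErrorOrder k α A) :
    ZetaOrder (A / (k + 1)) := by
  apply lower hα k hA
  intro ε hε
  obtain ⟨C, hC⟩ := h ε hε
  refine ⟨C, fun T hT => ?_⟩
  have := hC T hT
  rwa [moment_eq, sum_eq] at this

theorem lindelof_iff : Lindelof ↔ ZetaOrder 0 := by
  unfold Lindelof ZetaOrder
  simp only [zero_add]

/-- a common bound `T^A` for infinitely many `k` suffices -/
theorem lindelof_of_freq {α A : ℝ} (hα : 0 < α) (h : ∃ᶠ k : ℕ in atTop, ∃ C : ℝ, ∀ T : ℝ, 2 ≤ T →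
    ‖mixedMoment k α T - divisorSum k α T‖ ≤ C * T ^ A) : Lindelof := by
  intro ε hε
  set B : ℝ := max A 0 with hB
  have hB0 : 0 ≤ B := le_max_right _ _
  have hev : ∀ᶠ k : ℕ in atTop, B / ((k:ℝ) + 1) ≤ ε / 2 := by
    filter_upwards [eventually_ge_atTop ⌈2 * B / ε⌉₊] with k hk
    have h1 : 2 * B / ε ≤ k := (Nat.le_ceil _).trans (by exact_mod_cast hk)
    rw [div_le_iff₀ hε] at h1
    rw [div_le_iff₀ (by positivity)]
    nlinarith
  obtain ⟨k, ⟨C, hC⟩, hk⟩ := (h.and_eventually hev).exists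
  have h1 : ErrorOrder k α B := by
    intro η hη
    refine ⟨|C|, fun T hT => ?_⟩
    refine (hC T hT).trans ?_
    have h2 : T ^ A ≤ T ^ (B + η) := by
      apply Real.rpow_le_rpow_of_exponent_le (by linarith)
      have := le_max_left A 0
      linarith
    have h3 : 0 ≤ T ^ A := by positivity
    calc C * T ^ A ≤ |C| * T ^ A := mul_le_mul_of_nonneg_right (le_abs_self C) h3
      _ ≤ |C| * T ^ (B + η) := mul_le_mul_of_nonneg_left h2 (abs_nonneg C)
  obtain ⟨C', hC'⟩ := order_lower hα hB0 h1 (ε / 2) (by linarith)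
  refine ⟨C', fun t => (hC' t).trans ?_⟩
  have h4 : 0 ≤ C' := by
    have := (norm_nonneg _).trans (hC' 0)
    simpa using this
  apply mul_le_mul_of_nonneg_left _ h4
  apply Real.rpow_le_rpow_of_exponent_le (by linarith [abs_nonneg t])
  linarith

theorem all_of_lindelof {α : ℝ} (hα : 0 < α) (h : Lindelof) (k : ℕ) : ErrorOrder k α (1 / 2) := by
  have h1 := order_upper (k := k) hα le_rfl (lindelof_iff.1 h)
  rw [mul_zero, max_eq_left (by norm_num : (0:ℝ) ≤ 1 / 2)] at h1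
  exact h1

theorem bound_of_order {k : ℕ} {α : ℝ} (h : ErrorOrder k α (1 / 2)) : ∃ C : ℝ, ∀ T : ℝ, 2 ≤ T →
    ‖mixedMoment k α T - divisorSum k α T‖ ≤ C * T ^ (1:ℝ) := by
  obtain ⟨C, hC⟩ := h (1 / 2) (by norm_num)
  refine ⟨C, fun T hT => (hC T hT).trans (le_of_eq ?_)⟩
  norm_num

/-- the unconditional pointwise bound -/
theorem pointwise {α : ℝ} (hα : 0 < α) (k : ℕ) : ErrorOrder k α (max (1 / 2) (((k : ℝ) + 1) / 6)) := by
  have h := order_upper (k := k) hα (by norm_num) (show ZetaOrder (1 / 6) from zorder_weyl)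
  rwa [mul_one_div] at h

/-- the unconditional bound in mean -/
theorem inMean {α : ℝ} (hα : 0 < α) (k : ℕ) {p : ℕ} (hp : 1 ≤ p) {ε : ℝ} (hε : 0 < ε) :
    ∃ C : ℝ, ∀ X : ℝ, 2 ≤ X → ∫ T in X..(2 * X), ‖mixedMoment k α T - divisorSum k α T‖ ^ p ≤
      C * X ^ (1 + max ((p : ℝ) / 2) ((((k : ℝ) + 1) * p - 4) / 6) + ε) := by
  obtain ⟨q, rfl⟩ : ∃ q, p = q + 1 := ⟨p - 1, by omega⟩
  obtain ⟨C, hC⟩ := mean_upper hα k q (β := max (((q + 1 : ℕ) : ℝ) / 2) ((((k : ℝ) + 1) * (q + 1 : ℕ) - 4) / 6))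
    (le_max_left _ _) (by
      have := le_max_right (((q + 1 : ℕ) : ℝ) / 2) ((((k : ℝ) + 1) * (q + 1 : ℕ) - 4) / 6)
      push_cast at this ⊢
      linarith) hε
  refine ⟨C, fun X hX => ?_⟩
  have := hC X hX
  simp only [moment_eq, sum_eq]
  exact this

/-- the same for the range of the exponent `1/2` -/
theorem inMean_half {α : ℝ} (hα : 0 < α) (k : ℕ) {p : ℕ} (hp : 1 ≤ p) (hk : p * k ≤ 2 * p + 4) {ε : ℝ} (hε : 0 < ε) :
    ∃ C : ℝ, ∀ X : ℝ, 2 ≤ X → ∫ T in X..(2 * X), ‖mixedMoment k α T - divisorSum k α T‖ ^ p ≤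
      C * X ^ (1 + (p : ℝ) / 2 + ε) := by
  have h1 : (((k : ℝ) + 1) * p - 4) / 6 ≤ (p : ℝ) / 2 := by
    have : ((p * k : ℕ) : ℝ) ≤ ((2 * p + 4 : ℕ) : ℝ) := by exact_mod_cast hk
    push_cast at this
    linarith
  have := inMean hα k hp hε
  rwa [max_eq_left h1] at this

theorem result :
    (∀ (α : ℝ) (k : ℕ) (a : ℝ), 0 < α → 1 / 2 ≤ (k + 1) * a →
      (ZetaOrder a ↔ ErrorOrder k α ((k + 1) * a))) ∧
    (∀ (α : ℝ) (k : ℕ) (A : ℝ), 0 < α → 0 ≤ A → ErrorOrder k α A → ZetaOrder (A / (k + 1))) ∧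
    (∀ α : ℝ, 0 < α → (Lindelof ↔ ∀ k : ℕ, ErrorOrder k α (1 / 2))) ∧
    (∀ α : ℝ, 0 < α → (Lindelof ↔ ∃ A : ℝ, ∃ᶠ k : ℕ in atTop, ∃ C : ℝ, ∀ T : ℝ, 2 ≤ T →
      ‖mixedMoment k α T - divisorSum k α T‖ ≤ C * T ^ A)) ∧
    (∀ (α : ℝ) (k : ℕ), 0 < α → ErrorOrder k α (max (1 / 2) (((k : ℝ) + 1) / 6))) ∧
    (∀ (α : ℝ) (k p : ℕ) (ε : ℝ), 0 < α → 1 ≤ p → 0 < ε → ∃ C : ℝ, ∀ X : ℝ, 2 ≤ X →
      ∫ T in X..(2 * X), ‖mixedMoment k α T - divisorSum k α T‖ ^ p ≤
        C * X ^ (1 + max ((p : ℝ) / 2) ((((k : ℝ) + 1) * p - 4) / 6) + ε)) ∧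
    (∀ (α : ℝ) (k p : ℕ) (ε : ℝ), 0 < α → 1 ≤ p → p * k ≤ 2 * p + 4 → 0 < ε → ∃ C : ℝ, ∀ X : ℝ, 2 ≤ X →
      ∫ T in X..(2 * X), ‖mixedMoment k α T - divisorSum k α T‖ ^ p ≤ C * X ^ (1 + (p : ℝ) / 2 + ε)) := by
  refine ⟨?_, ?_, ?_, ?_, fun α k hα => pointwise hα k, fun α k p ε hα hp hε => inMean hα k hp hε,
    fun α k p ε hα hp hk hε => inMean_half hα k hp hk hε⟩
  · intro α k a hα hka
    have hk : (0:ℝ) < k + 1 := by positivity
    have ha : 0 ≤ a := by
      by_contra h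
      rw [not_le] at h
      nlinarith
    constructor
    · intro h
      have := order_upper (k := k) hα ha h
      rwa [max_eq_right hka] at this
    · intro h
      have := order_lower hα (by linarith) h
      have e : (k + 1) * a / (k + 1) = a := by field_simp
      rwa [e] at this
  · intro α k A hα hA h
    exact order_lower hα hA h
  · intro α hα
    constructor
    · exact all_of_lindelof hα
    · intro h
      apply lindelof_of_freq (A := 1) hα
      exact Filter.Frequently.of_forall (fun k => bound_of_order (h k))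
  · intro α hα
    constructor
    · intro h
      exact ⟨1, Filter.Frequently.of_forall (fun k => bound_of_order (all_of_lindelof hα h k))⟩
    · rintro ⟨A, h⟩
      exact lindelof_of_freq hα h

end Pool.Agent.Results.MP_4e5e8a_nt.MixedMoments
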