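import Pool.Agent.H60.ZA.Crit
import Pool.Agent.H60.ZA.Exc
import Pool.Agent.H60.WM.Cor

/-!
# The Lindelöf hypothesis and the zeros of local averages of zeta

Let `ν_1, …, ν_m` be complex measures with compact support in the half plane `Re z ≥ 0` (`dν_j = w_j dμ_j`, `μ_j`
finite, `w_j` integrable) whose Laplace transforms have no common exponentially small values at large real `ξ`:
`∑ |∫ e^(-ξ z) dν_j(z)| ≥ e^(-o(ξ))`. Let `P` be a non-constant polynomial and
`F_j(s) = ∫ P(ζ(s + z)) dν_j(z)`, an analytic function in `Im s > R`.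

* (local inequality, unconditional) For `ε > 0` and all large `T` there is `u`, `|u| ≤ T^ε`, with
  `|ζ(1/2 + iT)| ≤ T^ε (1 + ∑ |∫ ζ(1/2 + i(T + u) + z) dν_j(z)|)`: a large value of zeta on the critical line
  cannot be averaged away.
* (rarity of zeros, unconditional) There is `c > 0` such that for `0 < δ, ε ≤ 1` and large `X` the set of
  `T ∈ [X, 2X]` for which some `F_j` has more than `ε log T` zeros with `Re s ≥ 1/2 + δ`, `|Im s - T| ≤ 1` has
  measure at most `X^(1 - c δ² ε)`.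
* (law for large values, unconditional) Let `1/2 ≤ θ < 1`, `κ, ε > 0`. If `T` is large and
  `|ζ(θ + iT)| ≥ T^κ`, then within `T^ε` of the height `T` there is a window of height 2 in which one of the `F_j`
  has more than `η log T` zeros with `Re s ≥ θ + δ`; here `δ, η > 0` depend on `θ, κ, ε` only.
* (sizes) For `κ ≥ 0`, `ζ(1/2 + it) = O(t^(κ + ε))` for all `ε > 0` if and only if
  `F_j(1/2 + it) = O(t^(κ deg P + ε))` for all `ε > 0` and all `j`.
* (criteria) The Lindelöf hypothesis holds if and only if for all `δ > 0` every `F_j` has `o(log T)` zeros with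
  `Re s ≥ 1/2 + δ`, `|Im s - T| ≤ 1` (with multiplicity). More generally, for `1/2 ≤ θ < 1`, the bound
  `ζ(σ + it) = O(t^ε)` for all `ε > 0` and `σ > θ` is equivalent to `o(log T)` zeros of the `F_j` in
  `Re s ≥ θ + δ` for all `δ > 0`.
* (horizontal averages) For instance this holds for the single function `F(s) = ∫ P(ζ(s + x)) dμ(x)` where `μ` is any
  finite positive measure on an interval `[0, X]` with `0` in its support, such as `∫_0^1 ζ(s + x) dx`.

For one measure concentrated at `z = 0` and `P(x) = x - a` these are the classical statements about `a`-points of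
zeta (Backlund for `a = 0`).

Proof. (Rarity.) By the fourth moment of zeta on the critical line and a local maximum principle, zeta is at most
`T^κ` in the part `Re s ≥ 1/2` of a window at height `T` for all `T ∈ [X, 2X]` outside a set of measure
`X^(1 - 3κ)`; Jensen's inequality on discs centred far to the right then bounds the number of zeros.
(Law and criteria.) Far to the right `F_j` is an absolutely convergent Dirichlet series, so it vanishes identically or is bounded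
below on a vertical line. The Borel-Carathéodory theorem and the three circles theorem on discs centred there show
that few zeros near height `T` imply `F_j(s) = O(T^ε)` for `Re s ≥ ϑ > θ`. The inversion of the averages on the
line `Re s = ϑ` bounds `|ζ|^k` by `T^ε (1 + max |F_j| + max |ζ|^(k-1))` over a window of length `T^ε`; the three
lines theorem extends this to `Re s ≥ ϑ`, and finitely many iterations in nested windows give `ζ = O(T^ε)`. The
functional equation and the three lines theorem lead back to `Re s = θ`.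
-/

set_option autoImplicit false

open Complex MeasureTheory

namespace Pool.Agent.Results.MP_4e5e8a_nt.ZerosOfAverages

/-- `ζ(1/2 + it) = O((1 + |t|)^(κ + ε))` for every `ε > 0` -/
def Exponent (κ : ℝ) : Prop := ∀ ε : ℝ, 0 < ε → ∃ C : ℝ, ∀ t : ℝ,
  ‖riemannZeta (1 / 2 + (t : ℂ) * I)‖ ≤ C * (1 + |t|) ^ (κ + ε)

/-- the Lindelöf hypothesis: `ζ(1/2 + it) = O((1 + |t|)^ε)` for every `ε > 0` -/
def Lindelof : Prop := ∀ ε : ℝ, 0 < ε → ∃ C : ℝ, ∀ t : ℝ,
  ‖riemannZeta (1 / 2 + (t : ℂ) * I)‖ ≤ C * (1 + |t|) ^ ε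

/-- For all `δ, ε > 0` and all large `T`, the function `F` has at most `ε log T` zeros `s`, counted with
multiplicity, with `Re s ≥ θ + δ` and `|Im s - T| ≤ 1`. -/
def FewZeros (F : ℂ → ℂ) (θ : ℝ) : Prop := ∀ δ ε : ℝ, 0 < δ → 0 < ε → ∃ T₀ : ℝ, ∀ T : ℝ, T₀ ≤ T →
  ∀ S : Finset ℂ, (∀ s ∈ S, θ + δ ≤ s.re ∧ |s.im - T| ≤ 1) →
    ∑ s ∈ S, (analyticOrderNatAt F s : ℝ) ≤ ε * Real.log T

lemma lindelof_iff : Lindelof ↔ Pool.Agent.R747.TL.Exponent 0 := by
  unfold Lindelof Pool.Agent.R747.TL.Exponent Pool.Agent.R747.TL.zl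
  simp only [zero_add]

theorem result :
    -- complex measures `dν_j = w_j dμ_j` whose transforms have no common exponentially small values
    (∀ (m : ℕ) (μ : Fin m → Measure ℂ) (w : Fin m → ℂ → ℂ) (R : ℝ) (P : Polynomial ℂ),
      (∀ j, IsFiniteMeasure (μ j)) → (∀ j, Integrable (w j) (μ j)) →
      (∀ j, ∀ᵐ z ∂(μ j), 0 ≤ z.re ∧ ‖z‖ ≤ R) →
      (∀ ε : ℝ, 0 < ε → ∃ Λ : ℝ, ∀ ξ : ℝ, Λ ≤ ξ →
        Real.exp (-(ε * ξ)) ≤ ∑ j, ‖∫ z, w j z * cexp (-(ξ * z)) ∂(μ j)‖) →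
      0 < P.natDegree →
      -- the local inequality on the critical line
      (∀ ε : ℝ, 0 < ε → ∃ T0 : ℝ, ∀ T : ℝ, T0 ≤ T → ∃ u : ℝ, |u| ≤ T ^ ε ∧
        ‖riemannZeta (1 / 2 + (T : ℂ) * I)‖ ≤ T ^ ε * (1 + ∑ j, ‖∫ z, w j z *
          riemannZeta (1 / 2 + ((T + u : ℝ) : ℂ) * I + z) ∂(μ j)‖)) ∧
      -- the averages are analytic
      (∀ j, ∀ s : ℂ, R < s.im → AnalyticAt ℂ (fun s => ∫ z, w j z * P.eval (riemannZeta (s + z)) ∂(μ j)) s) ∧
      -- windows in which one of the averages has many zeros are rare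
      (∃ c : ℝ, 0 < c ∧ ∀ δ ε : ℝ, 0 < δ → δ ≤ 1 → 0 < ε → ε ≤ 1 → ∃ X₀ : ℝ, ∀ X : ℝ, X₀ ≤ X →
        volume {T : ℝ | (X ≤ T ∧ T ≤ 2 * X) ∧ ∃ (j : Fin m) (S : Finset ℂ),
          (∀ s ∈ S, 1 / 2 + δ ≤ s.re ∧ |s.im - T| ≤ 1) ∧ ε * Real.log T < ∑ s ∈ S,
            (analyticOrderNatAt (fun s => ∫ z, w j z * P.eval (riemannZeta (s + z)) ∂(μ j)) s : ℝ)} ≤
        ENNReal.ofReal (X ^ (1 - c * δ ^ 2 * ε))) ∧
      -- the law for large values
      (∀ θ κ ε : ℝ, 1 / 2 ≤ θ → θ < 1 → 0 < κ → 0 < ε → ∃ δ η T₀ : ℝ, 0 < δ ∧ 0 < η ∧ ∀ T : ℝ, T₀ ≤ T →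
        T ^ κ ≤ ‖riemannZeta ((θ : ℂ) + (T : ℂ) * I)‖ →
        ∃ (j : Fin m) (T' : ℝ), |T' - T| ≤ T ^ ε ∧ ∃ S : Finset ℂ,
          (∀ s ∈ S, θ + δ ≤ s.re ∧ |s.im - T'| ≤ 1) ∧ η * Real.log T < ∑ s ∈ S,
            (analyticOrderNatAt (fun s => ∫ z, w j z * P.eval (riemannZeta (s + z)) ∂(μ j)) s : ℝ)) ∧
      -- the sizes of the averages on the critical line decide the exponent of zeta
      (∀ κ : ℝ, 0 ≤ κ → (Exponent κ ↔ ∀ j, ∀ ε : ℝ, 0 < ε → ∃ C t0 : ℝ, ∀ t : ℝ, t0 ≤ t →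
        ‖∫ z, w j z * P.eval (riemannZeta (1 / 2 + (t : ℂ) * I + z)) ∂(μ j)‖ ≤
          C * t ^ (P.natDegree * κ + ε))) ∧
      -- the zeros of the averages decide the Lindelöf hypothesis
      (Lindelof ↔ ∀ j, FewZeros (fun s => ∫ z, w j z * P.eval (riemannZeta (s + z)) ∂(μ j)) (1 / 2)) ∧
      -- the criterion to the right of the line `Re s = θ`
      (∀ θ : ℝ, 1 / 2 ≤ θ → θ < 1 →
        ((∀ σ : ℝ, θ < σ → σ < 1 → ∀ ε : ℝ, 0 < ε → ∃ C : ℝ, ∀ t : ℝ, 1 ≤ t →
          ‖riemannZeta ((σ : ℂ) + (t : ℂ) * I)‖ ≤ C * t ^ ε) ↔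
        ∀ j, FewZeros (fun s => ∫ z, w j z * P.eval (riemannZeta (s + z)) ∂(μ j)) θ))) ∧
    -- horizontal averages with positive measures
    (∀ (μ : Measure ℝ) (X : ℝ) (P : Polynomial ℂ), IsFiniteMeasure μ → (∀ᵐ x ∂μ, 0 ≤ x ∧ x ≤ X) →
      (∀ δ : ℝ, 0 < δ → μ (Set.Iic δ) ≠ 0) → 0 < P.natDegree →
      (Lindelof ↔ FewZeros (fun s => ∫ x, P.eval (riemannZeta (s + (x : ℂ))) ∂μ) (1 / 2))) := by
  refine ⟨?_, ?_⟩
  · intro m μ w R P h1 h2 h3 h4 hP
    have hS : Pool.Agent.H60.WM.Slow μ w := h4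
    have hR : 0 ≤ R := by
      by_contra hR
      push Not at hR
      obtain ⟨Λ, hΛ⟩ := h4 1 one_pos
      have h5 := hΛ Λ le_rfl
      have h6 : ∀ j, ∫ z, w j z * cexp (-((Λ : ℂ) * z)) ∂(μ j) = 0 := by
        intro j
        have h7 : ∀ᵐ z ∂(μ j), False := by
          filter_upwards [h3 j] with z hz
          linarith [norm_nonneg z, hz.2]
        rw [integral_congr_ae (g := fun _ => (0 : ℂ)) (h7.mono fun z hz => hz.elim), integral_zero]
      simp only [h6, norm_zero, Finset.sum_const_zero] at h5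
      linarith [Real.exp_pos (-(1 * Λ))]
    have hg : ∀ j, Pool.Agent.H60.WM.Good (μ j) (w j) R := fun j => ⟨h1 j, h2 j, h3 j⟩
    refine ⟨fun ε hε => Pool.Agent.H60.WM.local_zeta hR hg hS hε,
      fun j s hs => Pool.Agent.H60.ZA.FF_an (hg j) P hs, Pool.Agent.H60.ZA.exc hR hg P, ?_, ?_, ?_, ?_⟩
    · intro θ κ ε hθ hθ1 hκ hε
      obtain ⟨δ, η, T0, a1, a2, _, h⟩ := Pool.Agent.H60.ZA.law hR hg hS P hP hθ hθ1 hκ hε
      exact ⟨δ, η, T0, a1, a2, h⟩
    · intro κ hκ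
      exact Pool.Agent.H60.WM.criterion hR hg hS P hP hκ
    · rw [lindelof_iff]
      exact Pool.Agent.H60.ZA.crit_line hR hg hS P hP
    · intro θ hθ hθ1
      exact Pool.Agent.H60.ZA.crit_right hR hg hS P hP hθ hθ1
  · intro μ X P h1 h2 h3 hP
    obtain ⟨ν, R, hR, hg, hS, he⟩ := Pool.Agent.H60.ZA.hor_data h2 h3 P
    rw [lindelof_iff, Pool.Agent.H60.ZA.crit_line (m := 1) hR (fun _ => hg) hS P hP, he]
    exact ⟨fun h => h 0, fun h _ => h⟩

end Pool.Agent.Results.MP_4e5e8a_nt.ZerosOfAverages
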